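import Mathlib
import Pool.Agent.H16.Coset2
set_option autoImplicit false
namespace Pool.Agent.Results.MP_fae9ec_al.Yes

/-- `G/H` is an irreducible coset space -/
def Irred {G : Type} [Group G] [TopologicalSpace G] (H : Subgroup G) : Prop :=
  IsClosed (H : Set G) ∧ H ≠ ⊤ ∧ ¬ ∃ K : Subgroup G, IsClosed (K : Set G) ∧ H < K ∧ K < ⊤

/-- `G/H` is faithful: the intersection of the conjugates of `H` is trivial -/
def Faithful {G : Type} [Group G] (H : Subgroup G) : Prop :=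
  ∀ x : G, (∀ g : G, g⁻¹ * x * g ∈ H) → x = 1

/-- nontrivial closed normal subgroup -/
def NCN {G : Type} [Group G] [TopologicalSpace G] (M : Subgroup G) : Prop :=
  IsClosed (M : Set G) ∧ M.Normal ∧ M ≠ ⊥

/-- minimal among the nontrivial closed normal subgroups -/
def MinNCN {G : Type} [Group G] [TopologicalSpace G] (M : Subgroup G) : Prop :=
  NCN M ∧ ∀ P : Subgroup G, NCN P → P ≤ M → P = M

theorem result : ∃ (G : Type) (_ : Group G) (_ : TopologicalSpace G) (_ : IsTopologicalGroup G)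
    (H M N : Subgroup G), Irred H ∧ Faithful H ∧ MinNCN M ∧ (∀ x ∈ M, ∀ y ∈ M, x * y = y * x) ∧
    NCN N ∧ M ⊓ N = ⊥ := by
  obtain ⟨G, i1, i2, i3, H, A, B, h1, h2, h3, h4, h5, h6, h7, h8, h9, h10, h11, h12, h13, h14⟩ :=
    Pool.Agent.H16.Coset.main
  have f : Faithful H := fun x hx => by
    have : x ∈ H.normalCore := fun g => by simpa using hx g⁻¹
    rwa [h4] at this
  have r : Irred H := ⟨h1, h2, fun ⟨K, a, b, c⟩ => c.ne (h3 K a b)⟩
  have m : MinNCN A := ⟨⟨h5, h6, h7⟩, fun P hP => h8 P hP.2.1 hP.2.2⟩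
  exact ⟨G, i1, i2, i3, H, A, B, r, f, m, h9, ⟨h10, h11, h12⟩, h13⟩

end Pool.Agent.Results.MP_fae9ec_al.Yes
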